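import Pool.Agent.H582AR.Prob

/-!
# A finitely generated Liouville group which is not algebraically recurrent

The group is the wreath product of two infinite cyclic groups: pairs of a Laurent polynomial with
integer coefficients (the lamps) and an integer (the cursor). For every positive real `z` the
elements whose lamp polynomial is positive at `z` form a proper semigroup. The heavy-tailed steps
are `+-h_k`, with `h_k` a huge multiple of the Chebyshev polynomial `T_{4^k}(2 t - 3)`: the sign of
the lamp polynomial of the walk at a point `z` of `[1, 2]` is that of the record term, and since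
the Chebyshev polynomials realise every sequence of signs at some point of `[1, 2]`, there is a
random `z` for which the walk eventually stays in the semigroup attached to `z`.
-/

set_option autoImplicit false

open MeasureTheory

namespace Pool.Agent.Results.MP_646863_pr.LiouvilleNotAR

/-- `S` is a finite symmetric generating set of `G` which does not contain the identity. -/
def IsGeneratingSet {G : Type} [Group G] (S : Finset G) : Prop :=
  (1 : G) ∉ S ∧ (∀ s ∈ S, s⁻¹ ∈ S) ∧ Subgroup.closure (S : Set G) = ⊤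

/-- `f` is harmonic for the simple random walk on the Cayley graph of `(G, S)`. -/
def Harmonic {G : Type} [Group G] (S : Finset G) (f : G → ℝ) : Prop :=
  ∀ g : G, f g = 1 / (S.card : ℝ) * ∑ s ∈ S, f (g * s)

/-- `G` is Liouville with respect to `S`: every bounded harmonic function is constant. -/
def Liouville {G : Type} [Group G] (S : Finset G) : Prop :=
  ∀ f : G → ℝ, Harmonic S f → (∃ C : ℝ, ∀ g, |f g| ≤ C) → ∃ c : ℝ, ∀ g, f g = c

/-- `μ` is symmetric, and its support generates the group. -/
def Admissible {G : Type} [Group G] (μ : PMF G) : Prop :=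
  (∀ g : G, μ g⁻¹ = μ g) ∧ Subgroup.closure μ.support = ⊤

/-- The law of the i.i.d. steps `ω 0, ω 1, ...` with law `μ`. -/
noncomputable def steps {G : Type} [MeasurableSpace G] (μ : PMF G) : Measure (ℕ → G) :=
  Measure.infinitePi (fun _ : ℕ => μ.toMeasure)

/-- The walk: `walk ω m = ω 0 * ω 1 * ... * ω (m - 1)`. -/
def walk {G : Type} [Group G] (ω : ℕ → G) (m : ℕ) : G := ((List.range m).map ω).prod

/-- The semigroup generated by `walk ω n, walk ω (n + 1), ...`. -/
def tail {G : Type} [Group G] (ω : ℕ → G) (n : ℕ) : Subsemigroup G :=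
  Subsemigroup.closure {g | ∃ m, n ≤ m ∧ g = walk ω m}

section Helpers

open Pool.Agent.H582AR

open Classical in
/-- the standard generators -/
noncomputable def S0 : Finset W := {W.t, W.t⁻¹, W.a, W.a⁻¹}

theorem mem_S0 (g : W) : g ∈ S0 ↔ g = W.t ∨ g = W.t⁻¹ ∨ g = W.a ∨ g = W.a⁻¹ := by
  simp [S0]

theorem S0_gen : IsGeneratingSet S0 := by
  refine ⟨?_, ?_, ?_⟩
  · rw [mem_S0]
    rintro (h | h | h | h)
    · have := congrArg W.s h; simp [W.t] at this
    · have := congrArg W.s h; simp [W.t] at this
    · have := congrArg W.F h; simp [W.a] at this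
    · have := congrArg W.F h; simp [W.a, LaurentPolynomial.T_zero] at this
  · intro s hs
    rw [mem_S0] at hs ⊢
    rcases hs with h | h | h | h
    · right; left; rw [h]
    · left; rw [h, inv_inv]
    · right; right; right; rw [h]
    · right; right; left; rw [h, inv_inv]
  · apply closure_ta
    · exact Subgroup.subset_closure ((mem_S0 _).2 (Or.inl rfl))
    · exact Subgroup.subset_closure ((mem_S0 _).2 (Or.inr (Or.inr (Or.inl rfl))))

theorem sum_S0 (u : W → ℝ) : ∑ s ∈ S0, u s = u W.t + u W.t⁻¹ + u W.a + u W.a⁻¹ := by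
  classical
  have e : S0 = ({W.t, W.t⁻¹, W.a, W.a⁻¹} : Finset W) := by
    ext g; rw [mem_S0]; simp
  have h1 : W.t ≠ W.t⁻¹ := fun h => by have := congrArg W.s h; simp [W.t] at this
  have h2 : W.t ≠ W.a := fun h => by have := congrArg W.s h; simp [W.t, W.a] at this
  have h3 : W.t ≠ W.a⁻¹ := fun h => by have := congrArg W.s h; simp [W.t, W.a] at this
  have h4 : W.t⁻¹ ≠ W.a := fun h => by have := congrArg W.s h; simp [W.t, W.a] at this
  have h5 : W.t⁻¹ ≠ W.a⁻¹ := fun h => by have := congrArg W.s h; simp [W.t, W.a] at this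
  have h6 : W.a ≠ W.a⁻¹ := fun h => by
    have h7 := congrArg (fun g : W => ev 1 one_ne_zero g.F) h
    simp only [W.a, W.inv_F, neg_zero, LaurentPolynomial.T_zero, one_mul, map_neg, map_one] at h7
    norm_num at h7
  rw [e, Finset.sum_insert, Finset.sum_insert, Finset.sum_insert, Finset.sum_singleton]
  · ring
  · simp [h6]
  · simp [h4, h5]
  · simp [h1, h2, h3]

theorem card_S0 : (S0.card : ℝ) = 4 := by
  have h := sum_S0 (fun _ => 1)
  rw [Finset.sum_const, nsmul_eq_mul, mul_one] at h
  rw [h]; norm_num

theorem S0_liouville : Liouville S0 := by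
  intro f hf hb
  obtain ⟨C, hC⟩ := hb
  refine ⟨f 1, liouville f C hC ?_⟩
  intro g
  have h := hf g
  rw [sum_S0 (fun s => f (g * s)), card_S0] at h
  rw [h]; ring

theorem comm_of_s (x y : W) (hx : x.s = 0) (hy : y.s = 0) : Commute x y := by
  unfold Commute SemiconjBy
  ext1
  · simp only [W.mul_F, hx, hy, LaurentPolynomial.T_zero, one_mul]
    ring
  · simp only [W.mul_s]; ring

theorem metabelian_W (x y z w : W) : Commute (x * y * x⁻¹ * y⁻¹) (z * w * z⁻¹ * w⁻¹) := by
  apply comm_of_s
  · simp only [W.mul_s, W.inv_s]; ring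
  · simp only [W.mul_s, W.inv_s]; ring

end Helpers

/-- There are a finitely generated (and metabelian) group `G`, a finite symmetric generating set
`S` with respect to which `G` is Liouville, and a symmetric probability measure `μ` on `G` whose
support generates `G`, such that for some `n ≥ 1` the semigroup generated by the walk from time `n`
on is different from `G` with positive probability; in fact, almost surely, the identity is missing
from the semigroup generated by the walk after some time. -/
theorem result : ∃ (G : Type) (_ : Group G) (_ : Countable G) (_ : MeasurableSpace G)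
    (_ : DiscreteMeasurableSpace G) (S : Finset G) (μ : PMF G),
    IsGeneratingSet S ∧ Liouville S ∧ Admissible μ ∧
    (∃ n : ℕ, 1 ≤ n ∧ 0 < steps μ {ω | tail ω n ≠ ⊤}) ∧
    (∀ᵐ ω ∂(steps μ), ∃ n : ℕ, 1 ≤ n ∧ (1 : G) ∉ tail ω n) ∧
    ∀ x y z w : G, Commute (x * y * x⁻¹ * y⁻¹) (z * w * z⁻¹ * w⁻¹) := by
  have hcount : Countable Pool.Agent.H582AR.W := Pool.Agent.H582AR.countable_W
  let _ : MeasurableSpace Pool.Agent.H582AR.W := ⊤
  have : DiscreteMeasurableSpace Pool.Agent.H582AR.W := ⟨fun _ => trivial⟩
  have hs : ∀ᵐ ω ∂(steps Pool.Agent.H582AR.nu), ∃ n : ℕ, 1 ≤ n ∧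
      (1 : Pool.Agent.H582AR.W) ∉ tail ω n := by
    unfold steps
    filter_upwards [Pool.Agent.H582AR.nu_strong] with ω hω
    obtain ⟨n, hn, z, hz, hz0, h⟩ := hω
    refine ⟨n, hn, fun h1 => ?_⟩
    have hle : tail ω n ≤ Pool.Agent.H582AR.Pz z hz hz0 := by
      unfold tail
      rw [Subsemigroup.closure_le]
      rintro _ ⟨m, hm, rfl⟩
      exact h m hm
    exact Pool.Agent.H582AR.one_notMem_Pz z hz hz0 (hle h1)
  have hpos : ∃ n : ℕ, 1 ≤ n ∧ 0 < steps Pool.Agent.H582AR.nu
      {ω : ℕ → Pool.Agent.H582AR.W | tail ω n ≠ ⊤} := by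
    by_contra hcon
    push Not at hcon
    have h1 : ∀ᵐ ω ∂(steps Pool.Agent.H582AR.nu), ∀ n : ℕ, 1 ≤ n → tail ω n = ⊤ := by
      rw [ae_all_iff]
      intro n
      by_cases hn : 1 ≤ n
      · have h2 := nonpos_iff_eq_zero.1 (hcon n hn)
        have h3 : ∀ᵐ ω ∂(steps Pool.Agent.H582AR.nu), tail ω n = ⊤ := by
          rw [ae_iff]; exact h2
        filter_upwards [h3] with ω hω _ using hω
      · exact Filter.Eventually.of_forall fun ω hn' => absurd hn' hn
    have h2 : ∀ᵐ ω ∂(steps Pool.Agent.H582AR.nu), False := by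
      filter_upwards [h1, hs] with ω hω1 hω2
      obtain ⟨n, hn, hω3⟩ := hω2
      rw [hω1 n hn] at hω3
      exact hω3 (Subsemigroup.mem_top _)
    unfold steps at h2
    rw [ae_iff] at h2
    simp at h2
  refine ⟨Pool.Agent.H582AR.W, inferInstance, hcount, inferInstance, inferInstance, S0,
    Pool.Agent.H582AR.nu, S0_gen, S0_liouville,
    ⟨Pool.Agent.H582AR.nu_symm, Pool.Agent.H582AR.nu_closure⟩, hpos, hs, metabelian_W⟩

end Pool.Agent.Results.MP_646863_pr.LiouvilleNotAR
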